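import Mathlib

/-!
MP_1ce445_co, windows above `1/2`, hub family with `m ≥ 3` overlap classes (`t = 0`): the symmetric choice is optimal.

`D = (1 + δ)/(m + 1)`, `c = 1 - D`, `y i ≥ 0`, `∑ y i = δ`, `R² = D δ - ∑ y²`, `e i = y i (D - y i)/R - y i`,
`r² = δ (D - δ/m)`. HBM: `∏ (c - e i) ≤ (c - (r - δ)/m)^m` below the threshold (`m = 3`: `δ ≤ 49/5000`; `m ≥ 4`:
`r ≤ 1/(2 m²)`). PLA: above the threshold the symmetric value is at most `(1 - 1/m)^m`.
-/

namespace Pool.Agent.Work.MP_1ce445_hub3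

open Finset

theorem HBM_neg {s : ℝ} (h0 : 0 ≤ s) (h1 : s ≤ 1 / 2) :
    1 + s ≤ Real.exp (s - s ^ 2 / 2 + s ^ 3 / 3) := by
  have ht : 0 ≤ s - s ^ 2 / 2 + s ^ 3 / 3 := by
    have h3 : 0 ≤ s ^ 3 := by positivity
    nlinarith
  have h := Real.sum_le_exp_of_nonneg ht 4
  simp only [Finset.sum_range_succ, Finset.sum_range_zero] at h
  norm_num [Nat.factorial] at h
  have hq : 0 ≤ s ^ 4 * (5 / 24 + s / 8 - 19 * s ^ 2 / 144 + 7 * s ^ 3 / 72 - s ^ 4 / 36 + s ^ 5 / 162) := by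
    apply mul_nonneg (by positivity)
    have h2 : s ^ 2 ≤ 1 / 4 := by nlinarith
    have h3 : 0 ≤ s ^ 3 := by positivity
    have h4 : s ^ 4 ≤ 1 / 16 := by nlinarith [sq_nonneg s]
    have h5 : 0 ≤ s ^ 5 := by positivity
    nlinarith
  nlinarith

theorem HBM_pos {p : ℝ} (h0 : 0 ≤ p) (h1 : p ≤ 1) : 1 - p ≤ Real.exp (-(p + p ^ 2 / 2)) := by
  rcases eq_or_lt_of_le h1 with rfl | h
  · simp; positivity
  · have h2 : |p| < 1 := by rw [abs_of_nonneg h0]; exact h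
    have h3 := Real.hasSum_pow_div_log_of_abs_lt_one h2
    have h4 := sum_le_hasSum (range 2) (fun i _ => by positivity) h3
    rw [sum_range_succ, sum_range_one] at h4
    norm_num at h4
    have h5 : Real.log (1 - p) ≤ -(p + p ^ 2 / 2) := by linarith
    have h6 : 0 < 1 - p := by linarith
    calc 1 - p = Real.exp (Real.log (1 - p)) := (Real.exp_log h6).symm
      _ ≤ _ := Real.exp_le_exp.2 h5

theorem HBM_exp {x : ℝ} (h0 : -(1 / 40) ≤ x) (h1 : x ≤ 1) :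
    1 - x ≤ Real.exp (-(x + 59 / 120 * x ^ 2)) := by
  rcases le_or_gt 0 x with h | h
  · refine (HBM_pos h h1).trans (Real.exp_le_exp.2 ?_)
    nlinarith [sq_nonneg x]
  · have h2 := HBM_neg (s := -x) (by linarith) (by linarith)
    have h3 : 1 - x = 1 + -x := by ring
    rw [h3]
    refine h2.trans (Real.exp_le_exp.2 ?_)
    nlinarith [mul_nonneg (sq_nonneg x) (by linarith : 0 ≤ 1 / 40 + x)]

/-- the product bound -/
theorem HBM_prod (m : ℕ) (C g W : ℝ) (z : Fin m → ℝ) (hC : 0 < C) (hz1 : ∀ i, -(C / 40) ≤ z i)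
    (hz2 : ∀ i, z i ≤ C) (hs : -g ≤ ∑ i, z i) (hW : W ≤ ∑ i, (z i) ^ 2) (hg : C * g ≤ 59 / 120 * W) :
    ∏ i, (C - z i) ≤ C ^ m := by
  have h1 : ∀ i, C - z i = C * (1 - z i / C) := by
    intro i
    field_simp
  have h2 : ∏ i, (C - z i) = C ^ m * ∏ i, (1 - z i / C) := by
    rw [Finset.prod_congr rfl (fun i _ => h1 i), Finset.prod_mul_distrib]
    simp
  rw [h2]
  have h3 : ∏ i, (1 - z i / C) ≤ ∏ i, Real.exp (-(z i / C + 59 / 120 * (z i / C) ^ 2)) := by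
    apply Finset.prod_le_prod
    · intro i _
      rw [sub_nonneg, div_le_one hC]
      exact hz2 i
    · intro i _
      apply HBM_exp
      · rw [le_div_iff₀ hC]
        have := hz1 i
        linarith
      · rw [div_le_one hC]
        exact hz2 i
  have h4 : ∏ i, Real.exp (-(z i / C + 59 / 120 * (z i / C) ^ 2)) ≤ 1 := by
    rw [← Real.exp_sum, Real.exp_le_one_iff]
    have h5 : ∑ i, -(z i / C + 59 / 120 * (z i / C) ^ 2)
        = -((∑ i, z i) / C + 59 / 120 * (∑ i, (z i) ^ 2) / C ^ 2) := by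
      rw [Finset.sum_neg_distrib, Finset.sum_add_distrib, Finset.sum_div, Finset.mul_sum, Finset.sum_div]
      congr 2
      apply Finset.sum_congr rfl
      intro i _
      rw [div_pow]
      ring
    rw [h5, neg_nonpos]
    have h6 : (∑ i, z i) / C + 59 / 120 * (∑ i, (z i) ^ 2) / C ^ 2
        = (C * (∑ i, z i) + 59 / 120 * ∑ i, (z i) ^ 2) / C ^ 2 := by
      field_simp
    rw [h6]
    apply div_nonneg _ (by positivity)
    nlinarith
  calc C ^ m * ∏ i, (1 - z i / C) ≤ C ^ m * 1 := by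
        apply mul_le_mul_of_nonneg_left (h3.trans h4) (by positivity)
    _ = C ^ m := mul_one _

/-- the variance bound -/
theorem HBM_var (m : ℕ) (κ s : ℝ) (y e : Fin m → ℝ) (hm : 0 < m)
    (h : ∀ i j, κ ^ 2 * (y i - y j) ^ 2 ≤ (e i - e j) ^ 2) :
    κ ^ 2 * (∑ i, (y i) ^ 2 - (∑ i, y i) ^ 2 / m) ≤ ∑ i, (e i - s) ^ 2 := by
  have hm' : (0 : ℝ) < m := by exact_mod_cast hm
  have key : ∀ f : Fin m → ℝ, ∑ i, ∑ j, (f i - f j) ^ 2
      = 2 * m * ∑ i, (f i) ^ 2 - 2 * (∑ i, f i) ^ 2 := by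
    intro f
    have h1 : ∀ i, ∑ j, (f i - f j) ^ 2 = m * (f i) ^ 2 - 2 * f i * (∑ j, f j) + ∑ j, (f j) ^ 2 := by
      intro i
      have : ∀ j, (f i - f j) ^ 2 = (f i) ^ 2 - 2 * f i * f j + (f j) ^ 2 := fun j => by ring
      rw [Finset.sum_congr rfl (fun j _ => this j), Finset.sum_add_distrib, Finset.sum_sub_distrib,
        ← Finset.mul_sum]
      simp
    rw [Finset.sum_congr rfl (fun i _ => h1 i), Finset.sum_add_distrib, Finset.sum_sub_distrib,
      ← Finset.mul_sum, ← Finset.sum_mul, ← Finset.mul_sum]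
    simp
    ring
  have h2 : κ ^ 2 * ∑ i, ∑ j, (y i - y j) ^ 2 ≤ ∑ i, ∑ j, (e i - e j) ^ 2 := by
    rw [Finset.mul_sum]
    apply Finset.sum_le_sum
    intro i _
    rw [Finset.mul_sum]
    exact Finset.sum_le_sum (fun j _ => h i j)
  rw [key, key] at h2
  have h3 : ∑ i, (e i - s) ^ 2 = ∑ i, (e i) ^ 2 - 2 * s * (∑ i, e i) + m * s ^ 2 := by
    have : ∀ i, (e i - s) ^ 2 = (e i) ^ 2 - 2 * s * e i + s ^ 2 := fun i => by ring
    rw [Finset.sum_congr rfl (fun i _ => this i), Finset.sum_add_distrib, Finset.sum_sub_distrib,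
      ← Finset.mul_sum]
    simp
  rw [h3]
  have h4 : 0 ≤ (∑ i, e i - m * s) ^ 2 := sq_nonneg _
  have h5 : (m : ℝ) * (κ ^ 2 * (∑ i, (y i) ^ 2 - (∑ i, y i) ^ 2 / m))
      ≤ m * (∑ i, (e i) ^ 2 - 2 * s * (∑ i, e i) + m * s ^ 2) := by
    have h6 : (m : ℝ) * (κ ^ 2 * (∑ i, (y i) ^ 2 - (∑ i, y i) ^ 2 / m))
        = κ ^ 2 * (m * ∑ i, (y i) ^ 2 - (∑ i, y i) ^ 2) := by
      field_simp
    rw [h6]
    nlinarith
  exact le_of_mul_le_mul_left h5 hm'

/-- the reduction to one inequality between numbers -/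
theorem HBM_core (m : ℕ) (D δ R r : ℝ) (y : Fin m → ℝ) (hm : 3 ≤ m) (hδ : 0 < δ)
    (hy : ∀ i, 0 ≤ y i) (hys : ∑ i, y i = δ) (hR : 0 < R)
    (hR2 : R ^ 2 = D * δ - ∑ i, (y i) ^ 2) (hr : 0 ≤ r) (hr2 : r ^ 2 = δ * (D - δ / m))
    (hDr : 0 ≤ D - r - δ) (hC : 0 < 1 - D - (r - δ) / m) (h40 : (r - δ) / m ≤ (1 - D - (r - δ) / m) / 40)
    (hr1 : r ≤ 1 - D)
    (hkey : r * (1 - D - (r - δ) / m) ≤ 59 / 60 * (D - r - δ) ^ 2) :
    ∏ i, (1 - D - (y i * (D - y i) / R - y i)) ≤ (1 - D - (r - δ) / m) ^ m := by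
  have hm0 : 0 < m := by omega
  have hm' : (0 : ℝ) < m := by exact_mod_cast hm0
  set C : ℝ := 1 - D - (r - δ) / m with hCdef
  have hyd : ∀ i, y i ≤ δ := by
    intro i
    rw [← hys]
    exact Finset.single_le_sum (fun j _ => hy j) (Finset.mem_univ i)
  have hyy : ∀ i j, i ≠ j → y i + y j ≤ δ := by
    intro i j hij
    rw [← hys]
    have : ∑ k ∈ ({i, j} : Finset (Fin m)), y k ≤ ∑ k, y k :=
      Finset.sum_le_sum_of_subset_of_nonneg (Finset.subset_univ _) (fun k _ _ => hy k)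
    rwa [Finset.sum_pair hij] at this
  -- variance of y
  have hV : r ^ 2 - R ^ 2 = ∑ i, (y i) ^ 2 - (∑ i, y i) ^ 2 / m := by
    rw [hr2, hR2, hys]
    ring
  have hV0 : 0 ≤ ∑ i, (y i) ^ 2 - (∑ i, y i) ^ 2 / m := by
    have h1 : (∑ i, y i) ^ 2 ≤ (Finset.univ : Finset (Fin m)).card * ∑ i, (y i) ^ 2 :=
      sq_sum_le_card_mul_sum_sq
    rw [Finset.card_univ, Fintype.card_fin] at h1
    rw [sub_nonneg, div_le_iff₀ hm']
    linarith
  have hRr : R ≤ r := by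
    apply le_of_sq_le_sq _ hr
    linarith
  have hDR : 0 ≤ D - R - δ := by linarith
  -- e
  set e : Fin m → ℝ := fun i => y i * (D - y i) / R - y i with he
  have hev : ∀ i, e i = y i * (D - R - y i) / R := by
    intro i
    simp only [he]
    field_simp
    ring
  have he0 : ∀ i, 0 ≤ e i := by
    intro i
    rw [hev]
    apply div_nonneg (mul_nonneg (hy i) _) hR.le
    have := hyd i
    linarith
  have hes : ∑ i, e i = R - δ := by
    have h1 : ∑ i, e i = (D * (∑ i, y i) - ∑ i, (y i) ^ 2) / R - ∑ i, y i := by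
      simp only [he]
      rw [Finset.sum_sub_distrib, ← Finset.sum_div]
      congr 2
      rw [Finset.mul_sum, ← Finset.sum_sub_distrib]
      apply Finset.sum_congr rfl
      intro i _
      ring
    rw [h1, hys, ← hR2]
    field_simp
  have hel : ∀ i, e i ≤ R - δ := by
    intro i
    rw [← hes]
    exact Finset.single_le_sum (fun j _ => he0 j) (Finset.mem_univ i)
  set κ : ℝ := (D - R - δ) / R with hκ
  have hκ0 : 0 ≤ κ := div_nonneg hDR hR.le
  have hpair : ∀ i j, κ ^ 2 * (y i - y j) ^ 2 ≤ (e i - e j) ^ 2 := by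
    intro i j
    by_cases hij : i = j
    · subst hij
      simp
    · have h1 : e i - e j = (y i - y j) * ((D - R - y i - y j) / R) := by
        rw [hev, hev]
        field_simp
        ring
      rw [h1, mul_pow, mul_comm]
      apply mul_le_mul_of_nonneg_left _ (sq_nonneg _)
      apply pow_le_pow_left₀ hκ0
      rw [hκ]
      apply div_le_div_of_nonneg_right _ hR.le
      have := hyy i j hij
      linarith
  have hvar := HBM_var m κ ((r - δ) / m) y e hm0 hpair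
  rw [← hV] at hvar
  have hprod : ∏ i, (1 - D - (y i * (D - y i) / R - y i)) = ∏ i, (C - (e i - (r - δ) / m)) := by
    apply Finset.prod_congr rfl
    intro i _
    simp only [hCdef, he]
    ring
  rw [hprod]
  apply HBM_prod m C (r - R) (κ ^ 2 * (r ^ 2 - R ^ 2)) (fun i => e i - (r - δ) / m) hC
  · intro i
    have := he0 i
    show -(C / 40) ≤ e i - (r - δ) / m
    linarith
  · intro i
    have := hel i
    show e i - (r - δ) / m ≤ C
    rw [hCdef]
    linarith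
  · rw [Finset.sum_sub_distrib, hes]
    simp
    field_simp
    linarith
  · exact hvar
  · -- C (r - R) ≤ 59/120 κ² (r² - R²)
    have h1 : C ≤ 59 / 120 * (κ ^ 2 * (r + R)) := by
      have h2 : R * C ≤ 59 / 60 * (D - R - δ) ^ 2 := by
        have h3 : (D - r - δ) ^ 2 ≤ (D - R - δ) ^ 2 := pow_le_pow_left₀ hDr (by linarith) 2
        have h4 : R * C ≤ r * C := mul_le_mul_of_nonneg_right hRr hC.le
        linarith
      have h5 : C * R ^ 2 ≤ 59 / 120 * ((D - R - δ) ^ 2 * (r + R)) := by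
        have h6 : R * (R * C) ≤ R * (59 / 60 * (D - R - δ) ^ 2) := mul_le_mul_of_nonneg_left h2 hR.le
        have h7 : 2 * R * (D - R - δ) ^ 2 ≤ (r + R) * (D - R - δ) ^ 2 :=
          mul_le_mul_of_nonneg_right (by linarith) (sq_nonneg _)
        nlinarith
      have h8 : 59 / 120 * (κ ^ 2 * (r + R)) = 59 / 120 * ((D - R - δ) ^ 2 * (r + R)) / R ^ 2 := by
        rw [hκ, div_pow]
        field_simp
      rw [h8, le_div_iff₀ (by positivity)]
      exact h5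
    have h9 : 0 ≤ r - R := by linarith
    calc C * (r - R) ≤ 59 / 120 * (κ ^ 2 * (r + R)) * (r - R) := mul_le_mul_of_nonneg_right h1 h9
      _ = 59 / 120 * (κ ^ 2 * (r ^ 2 - R ^ 2)) := by ring

/-- the numbers, `m = 3` -/
theorem HBM_num3 (δ r : ℝ) (h0 : 0 < δ) (h1 : δ ≤ 49 / 5000) (hr : 0 ≤ r)
    (hr2 : r ^ 2 = δ * ((1 + δ) / 4 - δ / 3)) :
    r ≤ 99 / 2000 ∧ 0 ≤ (1 + δ) / 4 - r - δ ∧ 0 < 1 - (1 + δ) / 4 - (r - δ) / 3 ∧
      (r - δ) / 3 ≤ (1 - (1 + δ) / 4 - (r - δ) / 3) / 40 ∧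
      r * (1 - (1 + δ) / 4 - (r - δ) / 3) ≤ 59 / 60 * ((1 + δ) / 4 - r - δ) ^ 2 := by
  have hr1 : r ≤ 495 / 10000 := by
    apply le_of_sq_le_sq _ (by norm_num)
    rw [hr2]
    nlinarith
  refine ⟨by linarith, by linarith, by linarith, by linarith, ?_⟩
  have h2 : 0 ≤ (1 + δ) / 4 - r - δ := by linarith
  have h3 : 19315 / 100000 ≤ (1 + δ) / 4 - r - δ := by linarith
  have h4 : (19315 / 100000) ^ 2 ≤ ((1 + δ) / 4 - r - δ) ^ 2 := pow_le_pow_left₀ (by norm_num) h3 2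
  have h5 : r * (1 - (1 + δ) / 4 - (r - δ) / 3) ≤ 495 / 10000 * (750817 / 1000000 - 165 / 10000) := by
    have h6 : 1 - (1 + δ) / 4 - (r - δ) / 3 = 3 / 4 + δ / 12 - r / 3 := by ring
    rw [h6]
    nlinarith [mul_nonneg hr (by linarith : 0 ≤ 495 / 10000 - r)]
  refine h5.trans (le_trans ?_ (mul_le_mul_of_nonneg_left h4 (by norm_num)))
  norm_num

/-- the numbers, `m ≥ 4` -/
theorem HBM_num4 (M δ r : ℝ) (hM : 4 ≤ M) (h0 : 0 < δ) (h1 : δ ≤ 1 / M) (hr : 0 ≤ r)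
    (hr1 : r ≤ 1 / (2 * M ^ 2)) (hr2 : r ^ 2 = δ * ((1 + δ) / (M + 1) - δ / M)) :
    r ≤ 1 - (1 + δ) / (M + 1) ∧ 0 ≤ (1 + δ) / (M + 1) - r - δ ∧ 0 < 1 - (1 + δ) / (M + 1) - (r - δ) / M ∧
      (r - δ) / M ≤ (1 - (1 + δ) / (M + 1) - (r - δ) / M) / 40 ∧
      r * (1 - (1 + δ) / (M + 1) - (r - δ) / M) ≤ 59 / 60 * ((1 + δ) / (M + 1) - r - δ) ^ 2 := by
  have hM0 : 0 < M := by linarith
  have hM1 : 0 < M + 1 := by linarith
  have hδ4 : δ ≤ 1 / 4 := by
    refine h1.trans ?_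
    rw [div_le_div_iff₀ hM0 (by norm_num)]
    linarith
  have hr3 : r ^ 2 = δ * (M - δ) / (M * (M + 1)) := by
    rw [hr2]
    field_simp
    ring
  -- δ ≤ 1/(3 M³)
  have hδ : δ ≤ 1 / (3 * M ^ 3) := by
    have h2 : r ^ 2 ≤ 1 / (4 * M ^ 4) := by
      have : r ^ 2 ≤ (1 / (2 * M ^ 2)) ^ 2 := pow_le_pow_left₀ hr hr1 2
      refine this.trans (le_of_eq ?_)
      field_simp
      norm_num
    rw [hr3, div_le_div_iff₀ (by positivity) (by positivity)] at h2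
    rw [le_div_iff₀ (by positivity)]
    have h3 : 15 / 16 * M ≤ M - δ := by linarith
    have h4 : δ * (15 / 16 * M) * (4 * M ^ 4) ≤ 1 * (M * (M + 1)) := by
      refine le_trans ?_ h2
      apply mul_le_mul_of_nonneg_right _ (by positivity)
      exact mul_le_mul_of_nonneg_left h3 h0.le
    have h5 : M * (M + 1) ≤ 5 / 4 * M ^ 2 := by nlinarith
    have h6 : M ^ 2 * (δ * (3 * M ^ 3)) ≤ M ^ 2 * 1 := by nlinarith
    exact le_of_mul_le_mul_left h6 (by positivity)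
  -- r ≤ 1/32
  have hr32 : r ≤ 1 / 32 := by
    refine hr1.trans ?_
    rw [div_le_div_iff₀ (by positivity) (by norm_num)]
    nlinarith
  have hD : (1 + δ) / (M + 1) - r - δ = 1 / (M + 1) - M / (M + 1) * δ - r := by
    field_simp
    ring
  have hMM : M / (M + 1) ≤ 1 := by
    rw [div_le_one hM1]
    linarith
  have hMM2 : 4 / 5 ≤ M / (M + 1) := by
    rw [div_le_div_iff₀ (by norm_num) hM1]
    linarith
  have hlow : 49 / 60 * (1 / (M + 1)) ≤ (1 + δ) / (M + 1) - r - δ := by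
    rw [hD]
    have h2 : M / (M + 1) * δ ≤ 1 / (3 * M ^ 3) := by
      calc M / (M + 1) * δ ≤ 1 * δ := mul_le_mul_of_nonneg_right hMM h0.le
        _ ≤ 1 / (3 * M ^ 3) := by rw [one_mul]; exact hδ
    have h3 : 1 / (3 * M ^ 3) + 1 / (2 * M ^ 2) ≤ 11 / 60 * (1 / (M + 1)) := by
      have h4 : 1 / (3 * M ^ 3) + 1 / (2 * M ^ 2) = (2 + 3 * M) / (6 * M ^ 3) := by
        field_simp
        ring
      have h5 : 11 / 60 * (1 / (M + 1)) = 11 / (60 * (M + 1)) := by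
        field_simp
      rw [h4, h5, div_le_div_iff₀ (by positivity) (by positivity)]
      nlinarith [mul_nonneg (sq_nonneg M) (by linarith : 0 ≤ M - 4), mul_nonneg hM0.le (by linarith : 0 ≤ M - 4)]
    linarith
  have hpos : 0 < 1 / (M + 1) := by positivity
  have hrδ : δ ≤ r := by
    apply le_of_sq_le_sq _ hr
    rw [hr3, le_div_iff₀ (by positivity)]
    have h2 : δ * (M * (M + 1)) ≤ M - δ := by
      have h3 : δ * (3 * M ^ 3) ≤ 1 := by
        rw [← le_div_iff₀ (by positivity)]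
        exact hδ
      have h4 : M * (M + 1) ≤ 5 / 4 * M ^ 2 := by nlinarith
      have h5 : δ * (M * (M + 1)) ≤ δ * (5 / 4 * M ^ 2) := mul_le_mul_of_nonneg_left h4 h0.le
      have h6 : δ * M ^ 2 ≤ δ * M ^ 3 := by
        apply mul_le_mul_of_nonneg_left _ h0.le
        nlinarith [sq_nonneg M]
      nlinarith
    nlinarith
  have hC : 1 - (1 + δ) / (M + 1) - (r - δ) / M = M / (M + 1) - δ / (M + 1) - (r - δ) / M := by
    field_simp
    ring
  have hCu : 1 - (1 + δ) / (M + 1) - (r - δ) / M ≤ M / (M + 1) := by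
    rw [hC]
    have h2 : 0 ≤ δ / (M + 1) := by positivity
    have h3 : 0 ≤ (r - δ) / M := div_nonneg (by linarith) hM0.le
    linarith
  have hdM : (r - δ) / M ≤ 1 / 128 := by
    rw [div_le_iff₀ hM0]
    linarith
  have hδM : δ / (M + 1) ≤ 1 / 20 := by
    rw [div_le_iff₀ hM1]
    linarith
  refine ⟨?_, by linarith [mul_pos (by norm_num : (0:ℝ) < 49 / 60) hpos], ?_, ?_, ?_⟩
  · have h2 : 1 - (1 + δ) / (M + 1) = M / (M + 1) - δ / (M + 1) := by
      field_simp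
      ring
    rw [h2]
    linarith
  · rw [hC]
    linarith
  · rw [hC]
    linarith
  · have h2 : (49 / 60 * (1 / (M + 1))) ^ 2 ≤ ((1 + δ) / (M + 1) - r - δ) ^ 2 :=
      pow_le_pow_left₀ (by positivity) hlow 2
    have h3 : r * (1 - (1 + δ) / (M + 1) - (r - δ) / M) ≤ 1 / (2 * M ^ 2) * (M / (M + 1)) := by
      calc r * (1 - (1 + δ) / (M + 1) - (r - δ) / M) ≤ r * (M / (M + 1)) :=
            mul_le_mul_of_nonneg_left hCu hr
        _ ≤ 1 / (2 * M ^ 2) * (M / (M + 1)) := mul_le_mul_of_nonneg_right hr1 (by positivity)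
    refine h3.trans (le_trans ?_ (mul_le_mul_of_nonneg_left h2 (by norm_num)))
    have h4 : 1 / (2 * M ^ 2) * (M / (M + 1)) = 1 / (2 * M * (M + 1)) := by
      field_simp
    have h5 : 59 / 60 * (49 / 60 * (1 / (M + 1))) ^ 2 = (59 / 60 * (49 / 60) ^ 2) / ((M + 1) ^ 2) := by
      field_simp
    rw [h4, h5, div_le_div_iff₀ (by positivity) (by positivity)]
    nlinarith

/-- HBM: the symmetric choice is optimal in the hub family with `m ≥ 3` overlap classes. -/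
theorem HBM (m : ℕ) (D δ R r : ℝ) (y : Fin m → ℝ) (hδ : 0 < δ) (hD : D = (1 + δ) / (m + 1))
    (hy : ∀ i, 0 ≤ y i) (hys : ∑ i, y i = δ) (hR : 0 < R)
    (hR2 : R ^ 2 = D * δ - ∑ i, (y i) ^ 2) (hr : 0 ≤ r) (hr2 : r ^ 2 = δ * (D - δ / m))
    (hm : (m = 3 ∧ δ ≤ 49 / 5000) ∨ (4 ≤ m ∧ δ ≤ 1 / m ∧ r ≤ 1 / (2 * (m : ℝ) ^ 2))) :
    ∏ i, (1 - D - (y i * (D - y i) / R - y i)) ≤ (1 - D - (r - δ) / m) ^ m := by
  subst hD
  rcases hm with ⟨hm, hδ1⟩ | ⟨hm, hδ1, hr1⟩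
  · subst hm
    have hr3 : r ^ 2 = δ * ((1 + δ) / 4 - δ / 3) := by
      rw [hr2]
      norm_num
    obtain ⟨h1, h2, h3, h4, h5⟩ := HBM_num3 δ r hδ hδ1 hr hr3
    have e1 : (((3 : ℕ) : ℝ) + 1) = 4 := by norm_num
    have e2 : ((3 : ℕ) : ℝ) = 3 := by norm_num
    apply HBM_core 3 _ δ R r y le_rfl hδ hy hys hR hR2 hr hr2
    · rw [e1]; exact h2
    · rw [e1, e2]; exact h3
    · rw [e1, e2]; exact h4
    · rw [e1]; linarith
    · rw [e1, e2]; exact h5
  · have hM : (4 : ℝ) ≤ (m : ℝ) := by exact_mod_cast hm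
    obtain ⟨h1, h2, h3, h4, h5⟩ := HBM_num4 m δ r hM hδ hδ1 hr hr1 hr2
    exact HBM_core m _ δ R r y (by omega) hδ hy hys hR hR2 hr hr2 h2 h3 h4 h1 h5

end Pool.Agent.Work.MP_1ce445_hub3
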