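import Mathlib

/-!
MP_1ce445_co, windows above `1/2`, `m ≥ 3`: above the threshold the symmetric hub value is at most `(1 - 1/m)^m`.
-/

namespace Pool.Agent.Work.MP_1ce445_hub3

open Finset

theorem PLA_bon (x : ℝ) (h1 : x ≤ 1) (n : ℕ) :
    1 - n * x + n * (n - 1) / 2 * x ^ 2 - n * (n - 1) * (n - 2) / 6 * x ^ 3 ≤ (1 - x) ^ n := by
  induction n with
  | zero => simp
  | succ n ih =>
    have h2 : (1 - x) * (1 - n * x + n * (n - 1) / 2 * x ^ 2 - n * (n - 1) * (n - 2) / 6 * x ^ 3)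
        ≤ (1 - x) * (1 - x) ^ n := mul_le_mul_of_nonneg_left ih (by linarith)
    have h3 : 0 ≤ (n : ℝ) * (n - 1) * (n - 2) / 6 * x ^ 4 := by
      apply mul_nonneg _ (by positivity)
      rcases n with _ | _ | n
      · simp
      · simp
      · push_cast
        have : (0 : ℝ) ≤ n := Nat.cast_nonneg n
        have e1 : ((n : ℝ) + 1 + 1) * (n + 1 + 1 - 1) * (n + 1 + 1 - 2) / 6 = (n + 2) * (n + 1) * n / 6 := by ring
        rw [e1]
        positivity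
    have h4 : (1 - x) ^ (n + 1) = (1 - x) * (1 - x) ^ n := by rw [pow_succ]; ring
    rw [h4]
    push_cast
    nlinarith

/-- the exponential form of the symmetric value -/
theorem PLA_exp (m : ℕ) (D δ r : ℝ) (hm : 3 ≤ m) (h0 : 0 ≤ δ) (h1 : δ ≤ 1 / m) (hD : D = (1 + δ) / (m + 1))
    (hr : 0 ≤ r) (hr2 : r ^ 2 = δ * (D - δ / m)) :
    (1 - D) * (1 - D - (r - δ) / m) ^ m
      ≤ ((m : ℝ) / (m + 1)) ^ (m + 1) * Real.exp (-(((m : ℝ) + 1) * r / m)) := by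
  have hM : (3 : ℝ) ≤ m := by exact_mod_cast hm
  have hM0 : (0 : ℝ) < m := by linarith
  have hM1 : (0 : ℝ) < (m : ℝ) + 1 := by linarith
  have hδ3 : δ ≤ 1 / 3 := by
    refine h1.trans ?_
    rw [div_le_div_iff₀ hM0 (by norm_num)]
    linarith
  have hDle : D ≤ 1 / 3 := by
    rw [hD, div_le_div_iff₀ hM1 (by norm_num)]
    linarith
  have hr1 : r ≤ 1 / 3 := by
    apply le_of_sq_le_sq _ (by norm_num)
    rw [hr2]
    have h2 : δ * (D - δ / m) ≤ 1 / 3 * (1 / 3) := by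
      have h3 : D - δ / m ≤ 1 / 3 := by
        have : 0 ≤ δ / m := by positivity
        linarith
      calc δ * (D - δ / m) ≤ δ * (1 / 3) := mul_le_mul_of_nonneg_left h3 h0
        _ ≤ 1 / 3 * (1 / 3) := by linarith
    linarith
  have e1 : 1 - D = (m : ℝ) / (m + 1) * (1 - δ / m) := by
    rw [hD]
    field_simp
    ring
  have e2 : 1 - D - (r - δ) / m = (m : ℝ) / (m + 1) * (1 - (((m : ℝ) + 1) * r - δ) / (m : ℝ) ^ 2) := by
    rw [hD]
    field_simp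
    ring
  have hb1 : 0 ≤ 1 - D - (r - δ) / m := by
    have h2 : (r - δ) / m ≤ 1 / 9 := by
      rw [div_le_iff₀ hM0]
      linarith
    linarith
  have hq : 0 < (m : ℝ) / (m + 1) := by positivity
  have hx1 : 0 ≤ 1 - (((m : ℝ) + 1) * r - δ) / (m : ℝ) ^ 2 := by
    by_contra h
    push Not at h
    have := mul_neg_of_pos_of_neg hq h
    rw [← e2] at this
    linarith
  have h3 : 1 - δ / m ≤ Real.exp (-(δ / m)) := Real.one_sub_le_exp_neg _
  have h4 : 1 - (((m : ℝ) + 1) * r - δ) / (m : ℝ) ^ 2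
      ≤ Real.exp (-((((m : ℝ) + 1) * r - δ) / (m : ℝ) ^ 2)) := Real.one_sub_le_exp_neg _
  have h5 : (1 - (((m : ℝ) + 1) * r - δ) / (m : ℝ) ^ 2) ^ m
      ≤ Real.exp (-((((m : ℝ) + 1) * r - δ) / m)) := by
    have := pow_le_pow_left₀ hx1 h4 m
    refine this.trans (le_of_eq ?_)
    rw [← Real.exp_nat_mul]
    congr 1
    field_simp
  rw [e2, e1, mul_pow, pow_succ]
  have h6 : (1 - δ / m) * (1 - (((m : ℝ) + 1) * r - δ) / (m : ℝ) ^ 2) ^ m
      ≤ Real.exp (-(((m : ℝ) + 1) * r / m)) := by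
    calc (1 - δ / m) * (1 - (((m : ℝ) + 1) * r - δ) / (m : ℝ) ^ 2) ^ m
        ≤ Real.exp (-(δ / m)) * Real.exp (-((((m : ℝ) + 1) * r - δ) / m)) := by
          apply mul_le_mul h3 h5 (pow_nonneg hx1 m) (Real.exp_pos _).le
      _ = Real.exp (-(((m : ℝ) + 1) * r / m)) := by
          rw [← Real.exp_add]
          congr 1
          field_simp
          ring
  calc (m : ℝ) / (m + 1) * (1 - δ / m) * (((m : ℝ) / (m + 1)) ^ m *
        (1 - (((m : ℝ) + 1) * r - δ) / (m : ℝ) ^ 2) ^ m)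
      = ((m : ℝ) / (m + 1)) ^ m * ((m : ℝ) / (m + 1)) *
        ((1 - δ / m) * (1 - (((m : ℝ) + 1) * r - δ) / (m : ℝ) ^ 2) ^ m) := by ring
    _ ≤ ((m : ℝ) / (m + 1)) ^ m * ((m : ℝ) / (m + 1)) * Real.exp (-(((m : ℝ) + 1) * r / m)) :=
        mul_le_mul_of_nonneg_left h6 (by positivity)

/-- the threshold, `m ≥ 4` -/
theorem PLA_thr (m : ℕ) (hm : 4 ≤ m) :
    ((m : ℝ) / (m + 1)) ^ (m + 1) * Real.exp (-(((m : ℝ) + 1) / (2 * (m : ℝ) ^ 3))) ≤ (1 - 1 / (m : ℝ)) ^ m := by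
  have hM : (4 : ℝ) ≤ m := by exact_mod_cast hm
  obtain ⟨M, hMdef⟩ : ∃ M : ℝ, M = (m : ℝ) := ⟨_, rfl⟩
  have hM4 : 4 ≤ M := by rw [hMdef]; exact hM
  have hM0 : 0 < M := by linarith
  have e1 : 1 - 1 / (m : ℝ) = (m : ℝ) / (m + 1) * (1 - 1 / (m : ℝ) ^ 2) := by
    rw [← hMdef]
    field_simp
    ring
  rw [e1, mul_pow, pow_succ, mul_assoc]
  apply mul_le_mul_of_nonneg_left _ (by positivity)
  have h1 : Real.exp (-(((m : ℝ) + 1) / (2 * (m : ℝ) ^ 3))) ≤ 1 / (1 + ((m : ℝ) + 1) / (2 * (m : ℝ) ^ 3)) := by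
    rw [Real.exp_neg, ← one_div]
    apply one_div_le_one_div_of_le (by positivity)
    have := Real.add_one_le_exp (((m : ℝ) + 1) / (2 * (m : ℝ) ^ 3))
    linarith
  have hx1 : 1 / (m : ℝ) ^ 2 ≤ 1 := by
    rw [div_le_one (by positivity)]
    nlinarith
  have h2 := PLA_bon (1 / (m : ℝ) ^ 2) hx1 m
  refine le_trans (mul_le_mul_of_nonneg_left h1 (by positivity)) (le_trans ?_ h2)
  rw [← hMdef]
  have e2 : 1 - M * (1 / M ^ 2) + M * (M - 1) / 2 * (1 / M ^ 2) ^ 2 - M * (M - 1) * (M - 2) / 6 * (1 / M ^ 2) ^ 3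
      = (6 * M ^ 5 - 6 * M ^ 4 + 3 * M ^ 3 - 4 * M ^ 2 + 3 * M - 2) / (6 * M ^ 5) := by
    field_simp
    ring
  have e3 : M / (M + 1) * (1 / (1 + (M + 1) / (2 * M ^ 3))) = 2 * M ^ 4 / ((M + 1) * (2 * M ^ 3 + M + 1)) := by
    field_simp
    ring
  rw [e2, e3, div_le_div_iff₀ (by positivity) (by positivity)]
  have hp : 0 ≤ 4 * M ^ 6 - 5 * M ^ 5 - 2 * M ^ 4 - 6 * M ^ 3 - M - 2 := by
    obtain ⟨t, ht⟩ : ∃ t : ℝ, M = t + 4 := ⟨M - 4, by ring⟩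
    have ht0 : 0 ≤ t := by linarith
    rw [ht]
    ring_nf
    positivity
  nlinarith

/-- PLA: above the threshold the symmetric hub value is at most `(1 - 1/m)^m`. -/
theorem PLA (m : ℕ) (D δ r : ℝ) (h0 : 0 ≤ δ) (h1 : δ ≤ 1 / m) (hD : D = (1 + δ) / (m + 1))
    (hr : 0 ≤ r) (hr2 : r ^ 2 = δ * (D - δ / m))
    (hm : (m = 3 ∧ 49 / 5000 ≤ δ) ∨ (4 ≤ m ∧ 1 / (2 * (m : ℝ) ^ 2) ≤ r)) :
    (1 - D) * (1 - D - (r - δ) / m) ^ m ≤ (1 - 1 / (m : ℝ)) ^ m := by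
  rcases hm with ⟨hm, hδ⟩ | ⟨hm, hr1⟩
  · subst hm
    refine (PLA_exp 3 D δ r le_rfl h0 h1 hD hr hr2).trans ?_
    norm_num at h1
    have hrl : 494 / 10000 ≤ r := by
      apply le_of_sq_le_sq _ hr
      rw [hr2, hD]
      norm_num
      nlinarith [mul_nonneg (by linarith : 0 ≤ δ - 49 / 5000) (by linarith : 0 ≤ 1 / 3 - δ)]
    have h2 : Real.exp (-((((3 : ℕ) : ℝ) + 1) * r / ((3 : ℕ) : ℝ))) ≤ 1 / (1 + 494 / 7500 + (494 / 7500) ^ 2 / 2) := by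
      rw [Real.exp_neg, ← one_div]
      apply one_div_le_one_div_of_le (by norm_num)
      have h3 := Real.quadratic_le_exp_of_nonneg (x := 494 / 7500) (by norm_num)
      refine h3.trans (Real.exp_le_exp.2 ?_)
      push_cast
      linarith
    refine (mul_le_mul_of_nonneg_left h2 (by positivity)).trans ?_
    norm_num
  · have hM : (4 : ℝ) ≤ m := by exact_mod_cast hm
    refine (PLA_exp m D δ r (by omega) h0 h1 hD hr hr2).trans (le_trans ?_ (PLA_thr m hm))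
    apply mul_le_mul_of_nonneg_left _ (by positivity)
    apply Real.exp_le_exp.2
    rw [neg_le_neg_iff]
    have hM0 : (0 : ℝ) < m := by linarith
    have e1 : ((m : ℝ) + 1) / (2 * (m : ℝ) ^ 3) = ((m : ℝ) + 1) / m * (1 / (2 * (m : ℝ) ^ 2)) := by
      field_simp
    rw [e1]
    calc ((m : ℝ) + 1) / m * (1 / (2 * (m : ℝ) ^ 2)) ≤ ((m : ℝ) + 1) / m * r :=
          mul_le_mul_of_nonneg_left hr1 (by positivity)
      _ = ((m : ℝ) + 1) * r / m := by ring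

end Pool.Agent.Work.MP_1ce445_hub3
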